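import Pool.Agent.K7.H32.LV.Stm

/-!
# Project LV, job DIG: reduction of the colour for knots
-/

set_option autoImplicit false

namespace Pool.Agent.K7.H76.LVDIG

open Finset Pool.Agent.H550R3.Jones Pool.Agent.K7.H32.LV

section ring

variable {R : Type} [CommRing R]

theorem bR_zero (u : Rˣ) (m : ℕ) (hu : u ^ (2 * m) = 1) (a : ℤ) (ha : (m : ℤ) ∣ a) : bR u a = 0 := by
  obtain ⟨c, rfl⟩ := ha
  have h1 : u ^ ((m : ℤ) * c) * u ^ ((m : ℤ) * c) = 1 := by
    rw [← zpow_add]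
    have : (m : ℤ) * c + (m : ℤ) * c = ((2 * m : ℕ) : ℤ) * c := by push_cast; ring
    rw [this, zpow_mul, zpow_natCast, hu, one_zpow]
  have h2 : u ^ (-((m : ℤ) * c)) = u ^ ((m : ℤ) * c) := by
    rw [zpow_neg]
    exact inv_eq_of_mul_eq_one_left h1
  unfold bR
  rw [h2, sub_self]

theorem qb_succ (u : Rˣ) (n k : ℕ) : qb u (n + 1) (k + 1) =
    ((u ^ ((k : ℤ) + 1) : Rˣ) : R) * qb u n (k + 1) + ((u ^ ((k : ℤ) - n) : Rˣ) : R) * qb u n k := rfl

theorem qb_lt (u : Rˣ) : ∀ n k : ℕ, n < k → qb u n k = 0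
  | 0, 0, h => absurd h (by omega)
  | 0, k + 1, _ => rfl
  | n + 1, 0, h => absurd h (by omega)
  | n + 1, k + 1, h => by
      simp only [qb]
      rw [qb_lt u n (k + 1) (by omega), qb_lt u n k (by omega)]
      ring

theorem qb_zero (u : Rˣ) (n : ℕ) : qb u n 0 = 1 := by
  cases n <;> rfl

theorem qb_self (u : Rˣ) : ∀ n : ℕ, qb u n n = 1
  | 0 => rfl
  | n + 1 => by
      simp only [qb]
      rw [qb_lt u n (n + 1) (by omega), qb_self u n]
      simp

theorem bR_pascal (u : Rˣ) (a b : ℤ) :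
    ((u ^ a : Rˣ) : R) * bR u b + ((u ^ (-b) : Rˣ) : R) * bR u a = bR u (a + b) := by
  unfold bR
  rw [mul_sub, mul_sub]
  simp only [← Units.val_mul, ← zpow_add]
  have e1 : -b + a = a + -b := by ring
  have e2 : -b + -a = -(a + b) := by ring
  rw [e1, e2]
  ring

/-- the `q`-binomial identity -/
theorem qb_mul (u : Rˣ) : ∀ b a : ℕ, qb u (a + b) a * ∏ j ∈ range b, bR u ((j : ℤ) + 1) =
    ∏ j ∈ range b, bR u ((a : ℤ) + j + 1) := by
  intro b
  induction b with
  | zero => intro a; simp [qb_self]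
  | succ b ihb =>
    intro a
    induction a with
    | zero =>
      rw [Nat.zero_add, qb_zero, one_mul]
      refine prod_congr rfl fun j _ => ?_
      congr 1
      push_cast
      ring
    | succ a iha =>
      have e0 : a + 1 + (b + 1) = (a + b + 1) + 1 := by ring
      rw [e0, qb_succ]
      have e1 : a + b + 1 = a + 1 + b := by ring
      have e2 : (a + b + 1 : ℕ) = a + (b + 1) := by ring
      have h1 : qb u (a + b + 1) (a + 1) * ∏ j ∈ range b, bR u ((j : ℤ) + 1) =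
          ∏ j ∈ range b, bR u (((a + 1 : ℕ) : ℤ) + j + 1) := by
        rw [e1]; exact ihb (a + 1)
      have h2 : qb u (a + b + 1) a * ∏ j ∈ range (b + 1), bR u ((j : ℤ) + 1) =
          ∏ j ∈ range (b + 1), bR u ((a : ℤ) + j + 1) := by
        rw [e2]; exact iha
      have h3 : ∏ j ∈ range (b + 1), bR u ((a : ℤ) + j + 1) =
          (∏ j ∈ range b, bR u (((a + 1 : ℕ) : ℤ) + j + 1)) * bR u ((a : ℤ) + 1) := by
        rw [prod_range_succ']
        refine congrArg₂ (· * ·) (prod_congr rfl fun j _ => ?_) ?_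
        · have : (a : ℤ) + ((j + 1 : ℕ) : ℤ) + 1 = ((a + 1 : ℕ) : ℤ) + j + 1 := by push_cast; ring
          rw [this]
        · simp
      rw [add_mul, mul_assoc, mul_assoc, h2, h3]
      rw [prod_range_succ (fun j : ℕ => bR u ((j : ℤ) + 1)), ← mul_assoc (qb u (a + b + 1) (a + 1)), h1]
      rw [prod_range_succ (fun j : ℕ => bR u (((a + 1 : ℕ) : ℤ) + j + 1))]
      have h4 := bR_pascal u ((a : ℤ) + 1) ((b : ℤ) + 1)
      have e3 : ((a + 1 : ℕ) : ℤ) + (b : ℤ) + 1 = (a : ℤ) + 1 + ((b : ℤ) + 1) := by push_cast; ring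
      have e4 : (a : ℤ) - ((a + b + 1 : ℕ) : ℤ) = -((b : ℤ) + 1) := by push_cast; ring
      rw [e3, ← h4, e4]
      ring

/-- the support of the crossings -/
theorem key [IsDomain R] (u : Rˣ) (m N : ℕ) (hm : 1 ≤ m) (hN : m ∣ N) (hu : u ^ (2 * m) = 1)
    (hk : ∀ k : ℕ, 0 < k → k < m → bR u k ≠ 0) (x z n : ℕ)
    (h : qb u (x + n) x * ∏ t ∈ range n, bR u ((N : ℤ) - ((z + n : ℕ) : ℤ) + t) ≠ 0) :
    (x + n) / m = x / m ∧ z / m = (z + n) / m := by
  have hz : z / m = (z + n) / m := by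
    by_contra hne
    apply h
    have hlt : z / m < (z + n) / m :=
      lt_of_le_of_ne (Nat.div_le_div_right (by omega)) hne
    have h1 : m * ((z + n) / m) ≤ z + n := Nat.mul_div_le _ _
    have h2 : z < m * ((z + n) / m) := by
      have := Nat.lt_mul_div_succ z (show 0 < m by omega)
      calc z < m * (z / m + 1) := this
        _ ≤ m * ((z + n) / m) := Nat.mul_le_mul_left _ hlt
    obtain ⟨c, hc⟩ : ∃ c, c = m * ((z + n) / m) := ⟨_, rfl⟩
    rw [← hc] at h1 h2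
    have h3 : ∏ t ∈ range n, bR u ((N : ℤ) - ((z + n : ℕ) : ℤ) + t) = 0 := by
      refine prod_eq_zero (i := z + n - c) (mem_range.2 (by omega)) ?_
      apply bR_zero u m hu
      have : (N : ℤ) - ((z + n : ℕ) : ℤ) + ((z + n - c : ℕ) : ℤ) = (N : ℤ) - c := by
        push_cast [Nat.cast_sub h1]
        ring
      rw [this]
      exact dvd_sub (Int.natCast_dvd_natCast.2 hN) (Int.natCast_dvd_natCast.2 (hc ▸ dvd_mul_right _ _))
    rw [h3, mul_zero]
  refine ⟨?_, hz⟩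
  have hn : n < m := by
    have h1 := Nat.lt_mul_div_succ (z + n) (show 0 < m by omega)
    have h2 : m * (z / m) ≤ z := Nat.mul_div_le _ _
    rw [← hz] at h1
    have h3 : m * (z / m + 1) = m * (z / m) + m := by ring
    omega
  by_contra hne
  apply h
  have hlt : x / m < (x + n) / m :=
    lt_of_le_of_ne (Nat.div_le_div_right (by omega)) (Ne.symm hne)
  have h1 : m * ((x + n) / m) ≤ x + n := Nat.mul_div_le _ _
  have h2 : x < m * ((x + n) / m) := by
    have := Nat.lt_mul_div_succ x (show 0 < m by omega)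
    calc x < m * (x / m + 1) := this
      _ ≤ m * ((x + n) / m) := Nat.mul_le_mul_left _ hlt
  obtain ⟨c, hc⟩ : ∃ c, c = m * ((x + n) / m) := ⟨_, rfl⟩
  rw [← hc] at h1 h2
  have h3 : ∏ j ∈ range n, bR u ((x : ℤ) + j + 1) = 0 := by
    refine prod_eq_zero (i := c - x - 1) (mem_range.2 (by omega)) ?_
    apply bR_zero u m hu
    have : (x : ℤ) + ((c - x - 1 : ℕ) : ℤ) + 1 = (c : ℤ) := by omega
    rw [this]
    exact Int.natCast_dvd_natCast.2 (hc ▸ dvd_mul_right _ _)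
  have h4 := qb_mul u n x
  rw [h3] at h4
  have h5 : ∏ j ∈ range n, bR u ((j : ℤ) + 1) ≠ 0 := by
    refine prod_ne_zero_iff.2 fun j hj => ?_
    have := hk (j + 1) (by omega) (by have := mem_range.1 hj; omega)
    push_cast at this
    exact this
  rcases mul_eq_zero.1 h4 with h6 | h6
  · rw [h6, zero_mul]
  · exact absurd h6 h5

theorem cP_supp [IsDomain R] (u : Rˣ) (m N : ℕ) (hm : 1 ≤ m) (hN : m ∣ N) (hu : u ^ (2 * m) = 1)
    (hk : ∀ k : ℕ, 0 < k → k < m → bR u k ≠ 0) (p q : Fin N × Fin N) (h : cP N u p q ≠ 0) :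
    (p.1 : ℕ) / m = (q.2 : ℕ) / m ∧ (p.2 : ℕ) / m = (q.1 : ℕ) / m := by
  unfold cP at h
  split_ifs at h with hc
  · obtain ⟨h1, h2⟩ := hc
    obtain ⟨n, hn⟩ := Nat.exists_eq_add_of_le h2
    have e1 : (p.1 : ℕ) - q.2 = n := by omega
    have e2 : (q.1 : ℕ) = p.2 + n := by omega
    have h3 : qb u ((q.2 : ℕ) + n) q.2 *
        ∏ t ∈ range n, bR u ((N : ℤ) - (((p.2 : ℕ) + n : ℕ) : ℤ) + t) ≠ 0 := by
      intro h0
      apply h
      rw [e1, e2, hn, mul_assoc, h0, mul_zero]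
    have h4 := key u m N hm hN hu hk _ _ _ h3
    rw [← hn, ← e2] at h4
    exact h4
  · exact absurd rfl h

theorem cN_supp [IsDomain R] (u : Rˣ) (m N : ℕ) (hm : 1 ≤ m) (hN : m ∣ N) (hu : u ^ (2 * m) = 1)
    (hk : ∀ k : ℕ, 0 < k → k < m → bR u k ≠ 0) (p q : Fin N × Fin N) (h : cN N u p q ≠ 0) :
    (p.1 : ℕ) / m = (q.2 : ℕ) / m ∧ (p.2 : ℕ) / m = (q.1 : ℕ) / m := by
  unfold cN at h
  split_ifs at h with hc
  · obtain ⟨h1, h2⟩ := hc
    obtain ⟨n, hn⟩ := Nat.exists_eq_add_of_le h2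
    have e1 : (p.2 : ℕ) - q.1 = n := by omega
    have e2 : (q.2 : ℕ) = p.1 + n := by omega
    have h3 : qb u ((q.1 : ℕ) + n) q.1 *
        ∏ t ∈ range n, bR u ((N : ℤ) - (((p.1 : ℕ) + n : ℕ) : ℤ) + t) ≠ 0 := by
      intro h0
      apply h
      rw [e1, e2, hn, mul_assoc, h0, mul_zero]
    have h4 := key u m N hm hN hu hk _ _ _ h3
    rw [← hn, ← e2] at h4
    exact ⟨h4.2, h4.1⟩
  · exact absurd rfl h

theorem zp (u : Rˣ) (N M : ℤ) (h : u ^ N = u ^ M) (a b x y : ℤ) (hx : x = N * a + b)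
    (hy : y = M * a + b) : u ^ x = u ^ y := by
  rw [hx, hy, zpow_add, zpow_add, zpow_mul, zpow_mul, h]

theorem bR_shift (u : Rˣ) (N M : ℤ) (h : u ^ N = u ^ M) (i t : ℤ) :
    bR u (N - i + t) = bR u (M - i + t) := by
  unfold bR
  rw [zp u N M h 1 (-i + t) (N - i + t) (M - i + t) (by ring) (by ring),
    zp u N M h (-1) (i - t) (-(N - i + t)) (-(M - i + t)) (by ring) (by ring)]

theorem cP_emb (u : Rˣ) (m N : ℕ) (h : u ^ (N : ℤ) = u ^ (m : ℤ)) (hle : m ≤ N)
    (p q : Fin m × Fin m) :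
    cP N u (Fin.castLE hle p.1, Fin.castLE hle p.2) (Fin.castLE hle q.1, Fin.castLE hle q.2) =
      cP m u p q := by
  unfold cP
  simp only [Fin.val_castLE]
  congr 1
  rw [zp u N m h (-(1 + ((q.1 : ℕ) : ℤ) + ((q.2 : ℕ) : ℤ)))
    ((1 + ((q.1 : ℕ) : ℤ) + ((q.2 : ℕ) : ℤ)) + 2 * ((p.1 : ℕ) : ℤ) * ((p.2 : ℕ) : ℤ))
    (-((N : ℤ) - 1) * (1 + ((q.1 : ℕ) : ℤ) + ((q.2 : ℕ) : ℤ)) + 2 * ((p.1 : ℕ) : ℤ) * ((p.2 : ℕ) : ℤ))
    (-((m : ℤ) - 1) * (1 + ((q.1 : ℕ) : ℤ) + ((q.2 : ℕ) : ℤ)) + 2 * ((p.1 : ℕ) : ℤ) * ((p.2 : ℕ) : ℤ))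
    (by ring) (by ring)]
  congr 1
  exact prod_congr rfl fun t _ => bR_shift u _ _ h _ _

theorem cN_emb (u : Rˣ) (m N : ℕ) (h : u ^ (N : ℤ) = u ^ (m : ℤ)) (hle : m ≤ N)
    (p q : Fin m × Fin m) :
    cN N u (Fin.castLE hle p.1, Fin.castLE hle p.2) (Fin.castLE hle q.1, Fin.castLE hle q.2) =
      cN m u p q := by
  unfold cN
  simp only [Fin.val_castLE]
  congr 1
  rw [zp u N m h ((1 + ((q.1 : ℕ) : ℤ) + ((q.2 : ℕ) : ℤ)))
    (-(1 + ((q.1 : ℕ) : ℤ) + ((q.2 : ℕ) : ℤ)) - 2 * ((q.1 : ℕ) : ℤ) * ((q.2 : ℕ) : ℤ))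
    (((N : ℤ) - 1) * (1 + ((q.1 : ℕ) : ℤ) + ((q.2 : ℕ) : ℤ)) - 2 * ((q.1 : ℕ) : ℤ) * ((q.2 : ℕ) : ℤ))
    (((m : ℤ) - 1) * (1 + ((q.1 : ℕ) : ℤ) + ((q.2 : ℕ) : ℤ)) - 2 * ((q.1 : ℕ) : ℤ) * ((q.2 : ℕ) : ℤ))
    (by ring) (by ring)]
  congr 1
  exact prod_congr rfl fun t _ => bR_shift u _ _ h _ _

/-- the support property -/
def Supp (m N : ℕ) (A : Matrix (Fin N × Fin N) (Fin N × Fin N) R) : Prop :=
  ∀ p q : Fin N × Fin N, A p q ≠ 0 →
    (p.1 : ℕ) / m = (q.2 : ℕ) / m ∧ (p.2 : ℕ) / m = (q.1 : ℕ) / m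

theorem gen_supp {m N : ℕ} {A : Matrix (Fin N × Fin N) (Fin N × Fin N) R} (hA : Supp m N A)
    (n k : ℕ) (s t : Fin n → Fin N) (h : genR A n k s t ≠ 0) (j : Fin n) :
    (s (sw n k j) : ℕ) / m = (t j : ℕ) / m := by
  unfold genR at h
  unfold sw
  split_ifs at h with h1 h2 h2
  · rw [dif_pos h1]
    obtain ⟨h3, h4⟩ := hA _ _ h
    simp only at h3 h4
    by_cases hk : (j : ℕ) = k
    · have : j = ⟨k, by omega⟩ := Fin.ext hk
      rw [this, Equiv.swap_apply_left]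
      exact h4
    · by_cases hk1 : (j : ℕ) = k + 1
      · have : j = ⟨k + 1, h1⟩ := Fin.ext hk1
        rw [this, Equiv.swap_apply_right]
        exact h3
      · rw [Equiv.swap_apply_of_ne_of_ne (fun h => hk (by rw [h])) (fun h => hk1 (by rw [h])),
          h2 j hk hk1]
  · exact absurd rfl h
  · rw [dif_neg h1, h2]
    rfl
  · exact absurd rfl h

theorem gen_emb {m N : ℕ} (hle : m ≤ N) {A : Matrix (Fin N × Fin N) (Fin N × Fin N) R}
    {B : Matrix (Fin m × Fin m) (Fin m × Fin m) R}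
    (hAB : ∀ p q : Fin m × Fin m,
      A (Fin.castLE hle p.1, Fin.castLE hle p.2) (Fin.castLE hle q.1, Fin.castLE hle q.2) = B p q)
    (n k : ℕ) (s t : Fin n → Fin m) :
    genR A n k (fun j => Fin.castLE hle (s j)) (fun j => Fin.castLE hle (t j)) = genR B n k s t := by
  have hinj : Function.Injective (Fin.castLE hle) := Fin.castLE_injective hle
  unfold genR
  by_cases h : k + 1 < n
  · rw [dif_pos h, dif_pos h]
    have e1 : (∀ j : Fin n, (j : ℕ) ≠ k → (j : ℕ) ≠ k + 1 →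
        Fin.castLE hle (s j) = Fin.castLE hle (t j)) ↔
        (∀ j : Fin n, (j : ℕ) ≠ k → (j : ℕ) ≠ k + 1 → s j = t j) :=
      forall_congr' fun j => imp_congr_right fun _ => imp_congr_right fun _ => hinj.eq_iff
    by_cases h2 : ∀ j : Fin n, (j : ℕ) ≠ k → (j : ℕ) ≠ k + 1 → s j = t j
    · rw [if_pos h2, if_pos (e1.2 h2)]
      exact hAB (s ⟨k, by omega⟩, s ⟨k + 1, h⟩) (t ⟨k, by omega⟩, t ⟨k + 1, h⟩)
    · rw [if_neg h2, if_neg (fun h3 => h2 (e1.1 h3))]
  · rw [dif_neg h, dif_neg h]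
    by_cases h2 : s = t
    · rw [if_pos h2, if_pos (by rw [h2])]
    · rw [if_neg h2, if_neg]
      intro h3
      exact h2 (funext fun j => hinj (congrFun h3 j))

theorem sw_sw (n k : ℕ) (j : Fin n) : sw n k (sw n k j) = j := by
  unfold sw
  split_ifs with h
  · exact Equiv.swap_apply_self _ _ _
  · rfl

theorem rep_supp {m N : ℕ} {P Q : Matrix (Fin N × Fin N) (Fin N × Fin N) R} (hP : Supp m N P)
    (hQ : Supp m N Q) (n : ℕ) : ∀ (w : List (ℕ × Bool)) (s t : Fin n → Fin N),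
    repR P Q n w s t ≠ 0 → ∀ j : Fin n, (s (pm n w j) : ℕ) / m = (t j : ℕ) / m := by
  intro w
  induction w with
  | nil =>
    intro s t h j
    have : s = t := by
      by_contra hne
      apply h
      simp [repR, Matrix.one_apply_ne hne]
    rw [this]
    simp [pm]
  | cons g w ih =>
    intro s t h j
    have e : repR P Q n (g :: w) = genR (if g.2 then P else Q) n g.1 * repR P Q n w := by
      simp [repR]
    rw [e, Matrix.mul_apply] at h
    obtain ⟨x, _, hx⟩ := exists_ne_zero_of_sum_ne_zero h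
    have h1 := gen_supp (A := if g.2 then P else Q) (m := m) (by split_ifs <;> assumption) n g.1 s x
      (left_ne_zero_of_mul hx)
    have h2 := ih x t (right_ne_zero_of_mul hx) j
    have e2 : pm n (g :: w) j = sw n g.1 (pm n w j) := by simp [pm]
    rw [e2, h1, h2]

theorem range_castLE {m N n : ℕ} (hle : m ≤ N) (x : Fin n → Fin N)
    (hx : x ∉ Set.range (fun (s : Fin n → Fin m) (j : Fin n) => Fin.castLE hle (s j))) :
    ∃ j, m ≤ (x j : ℕ) := by
  by_contra h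
  push Not at h
  exact hx ⟨fun j => ⟨x j, h j⟩, funext fun j => Fin.ext rfl⟩

theorem inj_castLE {m N n : ℕ} (hle : m ≤ N) :
    Function.Injective (fun (s : Fin n → Fin m) (j : Fin n) => Fin.castLE hle (s j)) :=
  fun _ _ h => funext fun j => Fin.castLE_injective hle (congrFun h j)

theorem rep_emb {m N : ℕ} (hm : 1 ≤ m) (hle : m ≤ N)
    {P Q : Matrix (Fin N × Fin N) (Fin N × Fin N) R} (hP : Supp m N P) (hQ : Supp m N Q)
    {P' Q' : Matrix (Fin m × Fin m) (Fin m × Fin m) R}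
    (hPP : ∀ p q : Fin m × Fin m,
      P (Fin.castLE hle p.1, Fin.castLE hle p.2) (Fin.castLE hle q.1, Fin.castLE hle q.2) = P' p q)
    (hQQ : ∀ p q : Fin m × Fin m,
      Q (Fin.castLE hle p.1, Fin.castLE hle p.2) (Fin.castLE hle q.1, Fin.castLE hle q.2) = Q' p q)
    (n : ℕ) : ∀ (w : List (ℕ × Bool)) (s t : Fin n → Fin m),
    repR P Q n w (fun j => Fin.castLE hle (s j)) (fun j => Fin.castLE hle (t j)) =
      repR P' Q' n w s t := by
  intro w
  induction w with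
  | nil =>
    intro s t
    by_cases h : s = t
    · subst h
      simp [repR]
    · have h2 : (fun j => Fin.castLE hle (s j)) ≠ (fun j => Fin.castLE hle (t j)) :=
        fun h3 => h (inj_castLE hle h3)
      simp [repR, Matrix.one_apply_ne h, Matrix.one_apply_ne h2]
  | cons g w ih =>
    intro s t
    have e : repR P Q n (g :: w) = genR (if g.2 then P else Q) n g.1 * repR P Q n w := by
      simp [repR]
    have e' : repR P' Q' n (g :: w) = genR (if g.2 then P' else Q') n g.1 * repR P' Q' n w := by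
      simp [repR]
    rw [e, e', Matrix.mul_apply, Matrix.mul_apply]
    symm
    refine Fintype.sum_of_injective
      (fun (s : Fin n → Fin m) (j : Fin n) => Fin.castLE hle (s j)) (inj_castLE hle) _ _ ?_ ?_
    · intro x hx
      obtain ⟨j, hj⟩ := range_castLE hle x hx
      have : genR (if g.2 then P else Q) n g.1 (fun j => Fin.castLE hle (s j)) x = 0 := by
        by_contra hne
        have h1 := gen_supp (A := if g.2 then P else Q) (m := m) (by split_ifs <;> assumption)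
          n g.1 _ x hne j
        simp only [Fin.val_castLE] at h1
        rw [Nat.div_eq_of_lt (s (sw n g.1 j)).isLt] at h1
        have h2 : 0 < (x j : ℕ) / m := Nat.div_pos hj (by omega)
        omega
      rw [this, zero_mul]
    · intro x
      rw [ih x t]
      congr 1
      symm
      apply gen_emb hle
      intro p q
      split_ifs
      · exact hPP p q
      · exact hQQ p q

theorem JR_eq [IsDomain R] (u : Rˣ) (m N n : ℕ) (w : List (ℕ × Bool)) (hw : IsKnot n w) (hm : 1 ≤ m)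
    (hN : m ∣ N) (hle : m ≤ N) (hu : u ^ (2 * m) = 1) (h : u ^ (N : ℤ) = u ^ (m : ℤ))
    (hk : ∀ k : ℕ, 0 < k → k < m → bR u k ≠ 0) : JR N n w u = JR m n w u := by
  have hN0 : 0 < N := by omega
  have hm0 : 0 < m := by omega
  have hP : Supp m N (cP N u) := cP_supp u m N hm hN hu hk
  have hQ : Supp m N (cN N u) := cN_supp u m N hm hN hu hk
  unfold JR
  rw [dif_pos hN0, dif_pos hm0]
  unfold tailR
  symm
  refine Fintype.sum_of_injective
    (fun (s : Fin n → Fin m) (j : Fin n) => Fin.castLE hle (s j)) (inj_castLE hle) _ _ ?_ ?_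
  · intro x hx
    obtain ⟨j, hj⟩ := range_castLE hle x hx
    have : repR (cP N u) (cN N u) (n + 1) w (Fin.cons ⟨0, hN0⟩ x : Fin (n + 1) → Fin N)
        (Fin.cons ⟨0, hN0⟩ x : Fin (n + 1) → Fin N) = 0 := by
      by_contra hne
      have h1 := rep_supp hP hQ (n + 1) w _ _ hne
      have h2 : ∀ k : ℕ, ((Fin.cons ⟨0, hN0⟩ x : Fin (n + 1) → Fin N)
          (((pm (n + 1) w) ^ k) 0) : ℕ) / m = 0 := by
        intro k
        induction k with
        | zero => simp
        | succ k ih =>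
          rw [pow_succ', Equiv.Perm.mul_apply, h1]
          exact ih
      obtain ⟨k, hk⟩ := hw j.succ
      have h3 := h2 k
      rw [hk, Fin.cons_succ] at h3
      have h4 : 0 < (x j : ℕ) / m := Nat.div_pos hj (by omega)
      omega
    rw [this, mul_zero]
  · intro x
    have e1 : (Fin.cons ⟨0, hN0⟩ (fun j => Fin.castLE hle (x j)) : Fin (n + 1) → Fin N) =
        fun j => Fin.castLE hle ((Fin.cons ⟨0, hm0⟩ x : Fin (n + 1) → Fin m) j) := by
      funext j
      refine Fin.cases ?_ (fun i => ?_) j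
      · rfl
      · rfl
    rw [e1, rep_emb hm hle hP hQ (cP_emb u m N h hle) (cN_emb u m N h hle) (n + 1) w]
    congr 1
    refine prod_congr rfl fun j _ => ?_
    simp only [Fin.val_castLE]
    rw [zp u N m h 1 (-1 - 2 * ((x j : ℕ) : ℤ)) ((N : ℤ) - 1 - 2 * ((x j : ℕ) : ℤ))
      ((m : ℤ) - 1 - 2 * ((x j : ℕ) : ℤ)) (by ring) (by ring)]

end ring

/-- **DIG** -/
theorem t : S_DIG := by
  intro m s n w hw hm hs R _ _ u hu h hk
  refine JR_eq u m (m * s) n w hw hm (dvd_mul_right _ _) (Nat.le_mul_of_pos_right _ (by omega)) hu ?_ hk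
  rw [zpow_natCast, zpow_natCast]
  have : m * s = m * (s - 1) + m := by
    obtain ⟨r, rfl⟩ := Nat.exists_eq_add_of_le hs
    simp only [Nat.add_sub_cancel_left]
    ring
  rw [this, pow_add, h, one_mul]

end Pool.Agent.K7.H76.LVDIG
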