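import Pool.Agent.K7.H47.DM.Stm4

set_option autoImplicit false

namespace Pool.Agent.K7.H76.D4

open Finset Pool.Agent.K7.H47.DM4

lemma aux {ι : Type} [Fintype ι] [DecidableEq ι] (t j cl : ι → ℕ) (ht : Function.Injective t)
    (σ σ' : Equiv.Perm ι) (hσ : Feas t j σ) (hσ' : Feas t j σ')
    (ho : ∀ τ, Feas t j τ → Wt t cl τ ≤ Wt t cl σ) (r : ι)
    (hmin : ∀ ρ, t ρ < t r → cl (σ.symm ρ) = cl (σ'.symm ρ)) :
    ¬ cl (σ'.symm r) < cl (σ.symm r) := by
  intro hlt
  obtain ⟨κ, hκ⟩ : ∃ κ, κ = cl (σ'.symm r) := ⟨_, rfl⟩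
  rw [← hκ] at hlt
  have hcard : (univ.filter fun x => cl x = κ ∧ t (σ x) ≤ t r).card <
      (univ.filter fun x => cl x = κ ∧ t (σ' x) ≤ t r).card := by
    have h1 : (univ.filter fun x => cl x = κ ∧ t (σ x) ≤ t r).image σ ⊂
        (univ.filter fun x => cl x = κ ∧ t (σ' x) ≤ t r).image σ' := by
      rw [Finset.ssubset_iff_of_subset]
      · refine ⟨r, ?_, ?_⟩
        · rw [mem_image]
          refine ⟨σ'.symm r, ?_, by simp⟩
          rw [mem_filter]
          exact ⟨mem_univ _, hκ.symm, by simp⟩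
        · rw [mem_image]
          rintro ⟨x, hx, hxr⟩
          rw [mem_filter] at hx
          have h : x = σ.symm r := by rw [← hxr]; simp
          rw [← h, hx.2.1] at hlt
          exact lt_irrefl _ hlt
      · intro ρ hρ
        rw [mem_image] at hρ ⊢
        obtain ⟨x, hx, rfl⟩ := hρ
        rw [mem_filter] at hx
        obtain ⟨_, hx1, hx2⟩ := hx
        rcases lt_or_eq_of_le hx2 with h | h
        · have h3 := hmin (σ x) h
          rw [Equiv.symm_apply_apply, hx1] at h3
          refine ⟨σ'.symm (σ x), ?_, by simp⟩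
          rw [mem_filter]
          exact ⟨mem_univ _, h3.symm, by simpa using hx2⟩
        · have hr : σ x = r := ht h
          have h4 : x = σ.symm r := by rw [← hr]; simp
          rw [← h4, hx1] at hlt
          exact absurd hlt (lt_irrefl _)
    have h2 := card_lt_card h1
    rwa [card_image_of_injective _ σ.injective, card_image_of_injective _ σ'.injective] at h2
  obtain ⟨x, hx', hx⟩ : ∃ x ∈ (univ.filter fun x => cl x = κ ∧ t (σ' x) ≤ t r),
      x ∉ (univ.filter fun x => cl x = κ ∧ t (σ x) ≤ t r) := by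
    by_contra hcon
    push Not at hcon
    exact absurd (card_le_card hcon) (by omega)
  rw [mem_filter] at hx' hx
  obtain ⟨_, hx1, hx2⟩ := hx'
  have hx3 : t r < t (σ x) := by
    by_contra hc
    exact hx ⟨mem_univ _, hx1, not_lt.1 hc⟩
  obtain ⟨y, hy⟩ : ∃ y, y = σ.symm r := ⟨_, rfl⟩
  rw [← hy] at hlt
  have hyr : σ y = r := by rw [hy]; simp
  have hxy : x ≠ y := by
    rintro rfl
    rw [hx1] at hlt
    exact lt_irrefl _ hlt
  have hf : Feas t j (σ * Equiv.swap x y) := by
    intro c
    rw [Equiv.Perm.mul_apply]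
    by_cases h1 : c = x
    · subst h1
      rw [Equiv.swap_apply_left, hyr]
      exact (hσ' c).trans hx2
    · by_cases h2 : c = y
      · subst h2
        rw [Equiv.swap_apply_right]
        have := hσ c
        rw [hyr] at this
        omega
      · rw [Equiv.swap_apply_of_ne_of_ne h1 h2]
        exact hσ c
  have hw := ho _ hf
  have e : ∀ g : ι → ℕ, ∑ c, g c = g x + (g y + ∑ c ∈ (univ.erase x).erase y, g c) := by
    intro g
    rw [Finset.add_sum_erase (univ.erase x) g (by simp [Ne.symm hxy]),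
      Finset.add_sum_erase univ g (mem_univ x)]
  have e3 : ∑ c ∈ (univ.erase x).erase y, cl c * t ((σ * Equiv.swap x y) c) =
      ∑ c ∈ (univ.erase x).erase y, cl c * t (σ c) := by
    refine sum_congr rfl fun c hc => ?_
    rw [mem_erase, mem_erase] at hc
    rw [Equiv.Perm.mul_apply, Equiv.swap_apply_of_ne_of_ne hc.2.1 hc.1]
  unfold Wt at hw
  rw [e (fun c => cl c * t ((σ * Equiv.swap x y) c)), e (fun c => cl c * t (σ c)), e3] at hw
  simp only [Equiv.Perm.mul_apply, Equiv.swap_apply_left, Equiv.swap_apply_right, hyr, hx1] at hw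
  nlinarith

theorem u : StU := by
  intro ι _ _ t j cl ht σ σ' hσ hσ' ho ho' r
  have key : ∀ n : ℕ, ∀ r, t r = n → cl (σ.symm r) = cl (σ'.symm r) := by
    intro n
    induction n using Nat.strong_induction_on with
    | _ n ih =>
      intro r hr
      have hmin : ∀ ρ, t ρ < t r → cl (σ.symm ρ) = cl (σ'.symm ρ) :=
        fun ρ hρ => ih (t ρ) (by omega) ρ rfl
      have h1 := aux t j cl ht σ σ' hσ hσ' ho r hmin
      have h2 := aux t j cl ht σ' σ hσ' hσ ho' r (fun ρ hρ => (hmin ρ hρ).symm)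
      omega
  exact key _ r rfl

end Pool.Agent.K7.H76.D4
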