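import Pool.Agent.K7.H80.EC.Stm2

set_option autoImplicit false

namespace Pool.Agent.K7.H76.ECPROD

open Finset Pool.Agent.K7.H80.EC

/-- weight on the subsets of `S` -/
noncomputable def ws {α : Type} (p : ℝ) (S U : Finset α) : ℝ :=
  p ^ U.card * (1 - p) ^ (S.card - U.card)

lemma ws_sum {α : Type} (p : ℝ) (S : Finset α) : ∑ U ∈ S.powerset, ws p S U = 1 := by
  have h := Finset.sum_pow_mul_eq_add_pow p (1 - p) S
  unfold ws
  rw [h]
  have : p + (1 - p) = 1 := by ring
  rw [this, one_pow]

open Classical in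
lemma wt_union {α : Type} [Fintype α] (p : ℝ) (T U V : Finset α) (hU : U ⊆ T) (hV : V ⊆ Tᶜ) :
    wt α p (U ∪ V) = ws p T U * ws p Tᶜ V := by
  have hd : Disjoint U V := by
    refine Finset.disjoint_left.2 fun a ha hb => ?_
    exact (Finset.mem_compl.1 (hV hb)) (hU ha)
  have h1 : (U ∪ V).card = U.card + V.card := Finset.card_union_of_disjoint hd
  have h2 : T.card + (Tᶜ).card = Fintype.card α := Finset.card_add_card_compl T
  have h3 : U.card ≤ T.card := Finset.card_le_card hU
  have h4 : V.card ≤ (Tᶜ).card := Finset.card_le_card hV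
  have h5 : Fintype.card α - (U ∪ V).card = (T.card - U.card) + ((Tᶜ).card - V.card) := by omega
  unfold wt ws
  rw [h5, h1, pow_add, pow_add]
  ring

open Classical in
lemma split {α : Type} [Fintype α] (p : ℝ) (T : Finset α) (g h : Finset α → ℝ) :
    ∑ W : Finset α, wt α p W * (g (W ∩ T) * h (W ∩ Tᶜ)) =
      (∑ U ∈ T.powerset, ws p T U * g U) * (∑ V ∈ (Tᶜ).powerset, ws p Tᶜ V * h V) := by
  rw [Finset.sum_mul_sum, ← Finset.sum_product']
  refine Finset.sum_bij' (fun W _ => (W ∩ T, W ∩ Tᶜ)) (fun q _ => q.1 ∪ q.2) ?_ ?_ ?_ ?_ ?_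
  · intro W _
    rw [Finset.mem_product]
    exact ⟨Finset.mem_powerset.2 Finset.inter_subset_right,
      Finset.mem_powerset.2 Finset.inter_subset_right⟩
  · intro q _
    exact Finset.mem_univ _
  · intro W _
    ext a
    simp only [Finset.mem_union, Finset.mem_inter, Finset.mem_compl]
    tauto
  · intro q hq
    rw [Finset.mem_product, Finset.mem_powerset, Finset.mem_powerset] at hq
    obtain ⟨h1, h2⟩ := hq
    refine Prod.ext ?_ ?_
    · ext a
      simp only [Finset.mem_union, Finset.mem_inter]
      constructor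
      · rintro ⟨h | h, h'⟩
        · exact h
        · exact absurd h' (Finset.mem_compl.1 (h2 h))
      · intro h
        exact ⟨Or.inl h, h1 h⟩
    · ext a
      simp only [Finset.mem_union, Finset.mem_inter, Finset.mem_compl]
      constructor
      · rintro ⟨h | h, h'⟩
        · exact absurd (h1 h) h'
        · exact h
      · intro h
        exact ⟨Or.inr h, Finset.mem_compl.1 (h2 h)⟩
  · intro W _
    have hW : W = (W ∩ T) ∪ (W ∩ Tᶜ) := by
      ext a
      simp only [Finset.mem_union, Finset.mem_inter, Finset.mem_compl]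
      tauto
    have := wt_union p T (W ∩ T) (W ∩ Tᶜ) Finset.inter_subset_right Finset.inter_subset_right
    rw [← hW] at this
    rw [this]
    ring

open Classical in
lemma indep {α : Type} [Fintype α] (p : ℝ) (T : Finset α) (g h : Finset α → ℝ) :
    ∑ W : Finset α, wt α p W * (g (W ∩ T) * h (W ∩ Tᶜ)) =
      (∑ W : Finset α, wt α p W * g (W ∩ T)) * (∑ W : Finset α, wt α p W * h (W ∩ Tᶜ)) := by
  have h1 := split p T g (fun _ => 1)
  have h2 := split p T (fun _ => 1) h
  simp only [mul_one, one_mul, ws_sum] at h1 h2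
  rw [split, h1, h2]

open Classical in
lemma total {α : Type} [Fintype α] (p : ℝ) : ∑ W : Finset α, wt α p W = 1 := by
  have h := split p (Finset.univ : Finset α) (fun _ => 1) (fun _ => 1)
  simp only [mul_one, ws_sum] at h
  exact h

lemma wt_nonneg {α : Type} [Fintype α] {p : ℝ} (h0 : 0 ≤ p) (h1 : p ≤ 1) (W : Finset α) :
    0 ≤ wt α p W :=
  mul_nonneg (pow_nonneg h0 _) (pow_nonneg (sub_nonneg.2 h1) _)

open Classical in
theorem t : StProd := by
  intro α _ p q h0 h1 C T X hT hX hq
  have key : ∀ D : Finset α, D ⊆ C →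
      ∑ W : Finset α, wt α p W * (if ∀ e ∈ D, ¬ X e W then (1 : ℝ) else 0) ≤ (1 - q) ^ D.card := by
    intro D
    induction D using Finset.induction_on with
    | empty =>
      intro _
      simp [total]
    | insert e D he ih =>
      intro hD
      have heC : e ∈ C := hD (Finset.mem_insert_self _ _)
      have hDC : D ⊆ C := fun x hx => hD (Finset.mem_insert_of_mem hx)
      have ih := ih hDC
      have hh : ∀ W : Finset α, (∀ f ∈ D, ¬ X f W) ↔ ∀ f ∈ D, ¬ X f (W ∩ (T e)ᶜ) := by
        intro W
        refine forall₂_congr fun f hf => not_congr ?_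
        rw [hX f (hDC hf) W, hX f (hDC hf) (W ∩ (T e)ᶜ)]
        have hd : Disjoint (T e) (T f) := hT e heC f (hDC hf) (fun h => he (h ▸ hf))
        have : W ∩ (T e)ᶜ ∩ T f = W ∩ T f := by
          ext a
          simp only [Finset.mem_inter, Finset.mem_compl]
          constructor
          · rintro ⟨⟨h, _⟩, h'⟩
            exact ⟨h, h'⟩
          · rintro ⟨h, h'⟩
            exact ⟨⟨h, fun h'' => Finset.disjoint_left.1 hd h'' h'⟩, h'⟩
        rw [this]
      have e1 : ∀ W : Finset α, wt α p W * (if ∀ f ∈ insert e D, ¬ X f W then (1 : ℝ) else 0) =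
          wt α p W * ((fun U => if ¬ X e U then (1 : ℝ) else 0) (W ∩ T e) *
            (fun V => if ∀ f ∈ D, ¬ X f V then (1 : ℝ) else 0) (W ∩ (T e)ᶜ)) := by
        intro W
        have a1 : (∀ f ∈ insert e D, ¬ X f W) ↔ (¬ X e (W ∩ T e)) ∧
            ∀ f ∈ D, ¬ X f (W ∩ (T e)ᶜ) := by
          rw [Finset.forall_mem_insert, hh W, hX e heC W]
        by_cases b1 : X e (W ∩ T e)
        · have : ¬ ∀ f ∈ insert e D, ¬ X f W := fun h => (a1.1 h).1 b1
          rw [if_neg this]
          simp only [not_not.2 b1, if_false, zero_mul, mul_zero]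
        · by_cases b2 : ∀ f ∈ D, ¬ X f (W ∩ (T e)ᶜ)
          · have : ∀ f ∈ insert e D, ¬ X f W := a1.2 ⟨b1, b2⟩
            rw [if_pos this]
            simp only [if_pos b1, if_pos b2, mul_one]
          · have : ¬ ∀ f ∈ insert e D, ¬ X f W := fun h => b2 (a1.1 h).2
            rw [if_neg this]
            simp only [if_neg b2, mul_zero]
      have e4 := indep p (T e) (fun U => if ¬ X e U then (1 : ℝ) else 0)
        (fun V => if ∀ f ∈ D, ¬ X f V then (1 : ℝ) else 0)
      rw [Finset.sum_congr rfl fun W _ => e1 W, e4, Finset.card_insert_of_notMem he, pow_succ']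
      have e2 : ∑ W : Finset α, wt α p W *
          (fun V => if ∀ f ∈ D, ¬ X f V then (1 : ℝ) else 0) (W ∩ (T e)ᶜ) =
          ∑ W : Finset α, wt α p W * (if ∀ f ∈ D, ¬ X f W then (1 : ℝ) else 0) := by
        refine Finset.sum_congr rfl fun W _ => ?_
        simp only [hh W]
      have e3 : ∑ W : Finset α, wt α p W *
          (fun U => if ¬ X e U then (1 : ℝ) else 0) (W ∩ T e) =
          1 - ∑ W ∈ univ.filter (fun W => X e W), wt α p W := by
        rw [Finset.sum_filter, eq_sub_iff_add_eq, ← Finset.sum_add_distrib]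
        refine Eq.trans ?_ (total (α := α) p)
        refine Finset.sum_congr rfl fun W _ => ?_
        by_cases b : X e W
        · have b' : X e (W ∩ T e) := (hX e heC W).1 b
          simp [b, b']
        · have b' : ¬ X e (W ∩ T e) := fun h => b ((hX e heC W).2 h)
          simp [b, b']
      rw [e2, e3]
      have n1 : 0 ≤ ∑ W : Finset α, wt α p W * (if ∀ f ∈ D, ¬ X f W then (1 : ℝ) else 0) := by
        refine Finset.sum_nonneg fun W _ => mul_nonneg (wt_nonneg h0 h1 W) ?_
        split_ifs <;> norm_num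
      have n2 : 0 ≤ 1 - ∑ W ∈ univ.filter (fun W => X e W), wt α p W := by
        rw [← e3]
        refine Finset.sum_nonneg fun W _ => mul_nonneg (wt_nonneg h0 h1 W) ?_
        simp only
        split_ifs <;> norm_num
      have n3 : 1 - ∑ W ∈ univ.filter (fun W => X e W), wt α p W ≤ 1 - q := by
        have := hq e heC
        linarith
      exact mul_le_mul n3 ih n1 (le_trans n2 n3)
  have := key C (Finset.Subset.refl _)
  refine le_trans (le_of_eq ?_) this
  rw [Finset.sum_filter]
  refine Finset.sum_congr rfl fun W _ => ?_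
  split_ifs <;> simp

end Pool.Agent.K7.H76.ECPROD
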