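import Pool.Agent.K7.H84.GG.Stm

/-!
# Project GG (MP_dc96bc_co), job KB
-/

set_option autoImplicit false

namespace Pool.Agent.K7.H76.GGKB

open Finset DC813 Pool.Agent.K7.H84.GG

theorem mc_self {α : Type} [DecidableEq α] (r : Finset α → ℕ) (E : Finset α) : mc r E E = 1 := by
  unfold mc mu con
  have h : (({∅} : Finset (Finset α)).filter fun X => r (X ∪ E) - r E = 0) = {∅} := by
    rw [filter_singleton, if_pos (by simp)]
  simp only [sdiff_self, powerset_empty]
  simp [h]

theorem sub_one (α : Type) [DecidableEq α] : Sub (fun _ : Finset α => (1 : ℤ)) :=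
  fun _ _ => le_refl _

theorem sub_neg_one (α : Type) [DecidableEq α] : Sub (fun _ : Finset α => (-1 : ℤ)) :=
  fun _ _ => le_refl _

theorem mem_fl {α : Type} [DecidableEq α] {r : Finset α → ℕ} {E F : Finset α} :
    F ∈ fl r E ↔ F ⊆ E ∧ ∀ e ∈ E, e ∉ F → r F < r (insert e F) := by
  unfold fl
  rw [mem_filter, mem_powerset]

/-- the context of a flat containing `L` -/
theorem ctx_of {α : Type} [DecidableEq α] {r : Finset α → ℕ} {E L F : Finset α} {p : α}
    (h : Ctx r E L p) (hF : F ∈ fl r E) (hLF : L ⊆ F) : Ctx r F L p where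
  hr := h.hr
  lp := fun x hx => h.lp x ((mem_fl.1 hF).1 hx)
  hp := hLF h.hpL
  hL := by
    rw [mem_fl]
    exact ⟨hLF, fun e he heL => (mem_fl.1 h.hL).2 e ((mem_fl.1 hF).1 he) heL⟩
  hL2 := h.hL2
  hpL := h.hpL

theorem rank_lt {α : Type} [DecidableEq α] {r : Finset α → ℕ} (hr : IsRk r) {E F : Finset α}
    (hF : F ∈ fl r E) (hne : F ≠ E) : r F < r E := by
  obtain ⟨h1, h2⟩ := mem_fl.1 hF
  obtain ⟨e, he, heF⟩ : ∃ e ∈ E, e ∉ F := by
    by_contra hcon
    push Not at hcon
    exact hne (Subset.antisymm h1 hcon)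
  exact (h2 e he heF).trans_le (hr.mono _ _ (insert_subset he h1))

/-- the identity from `f = 1` and `f = -1` -/
theorem sum_eq (hK : StKap) (hW : StWeis) (hI : StID1) {α : Type} [DecidableEq α]
    (r : Finset α → ℕ) (E L : Finset α) (p : α) (h : Ctx r E L p) (ih : IH α (r E)) :
    ∑ F ∈ (fl r E).filter (fun F => L ⊆ F), kappa r F L p * mc r E F =
      ∑ F ∈ (fl r E).filter (fun F => L ⊆ F), beta r F * mc r E F := by
  have h1 := hK α r E L p (fun _ => 1) h ih (sub_one α)
  have h2 := hK α r E L p (fun _ => -1) h ih (sub_neg_one α)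
  simp only [mul_one, mul_neg, sum_neg_distrib] at h1 h2
  have h3 : ∑ H ∈ hy r E p, mu r H = mu r E := hW α r E p h.hr h.hp (h.lp p h.hp)
  have h4 := hI α r E p h.hr h.lp h.hp
  have h5 : ∑ F ∈ (fl r E).filter (fun F => p ∈ F), beta r F * mc r E F =
      ∑ F ∈ (fl r E).filter (fun F => p ∈ F ∧ ¬ L ⊆ F), beta r F * mc r E F +
        ∑ F ∈ (fl r E).filter (fun F => L ⊆ F), beta r F * mc r E F := by
    rw [← sum_filter_add_sum_filter_not ((fl r E).filter (fun F => p ∈ F)) (fun F => ¬ L ⊆ F),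
      filter_filter, filter_filter]
    congr 1
    refine sum_congr ?_ fun _ _ => rfl
    ext F
    simp only [mem_filter, not_not]
    constructor
    · rintro ⟨a, _, b⟩
      exact ⟨a, b⟩
    · rintro ⟨a, b⟩
      exact ⟨a, b h.hpL, b⟩
  linarith

theorem main (hK : StKap) (hW : StWeis) (hI : StID1) {α : Type} [DecidableEq α]
    (r : Finset α → ℕ) (L : Finset α) (p : α) : ∀ (n : ℕ) (E : Finset α), r E = n →
      Ctx r E L p → IH α (r E) → kappa r E L p = beta r E := by
  intro n
  induction n using Nat.strong_induction_on with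
  | _ n ihn =>
    intro E hE h ih
    have hs := sum_eq hK hW hI r E L p h ih
    have hEm : E ∈ (fl r E).filter (fun F => L ⊆ F) := by
      rw [mem_filter, mem_fl]
      exact ⟨⟨Subset.refl _, fun e he h' => absurd he h'⟩, (mem_fl.1 h.hL).1⟩
    rw [← add_sum_erase _ _ hEm, ← add_sum_erase _ _ hEm, mc_self, mul_one, mul_one] at hs
    have hrest : ∑ F ∈ ((fl r E).filter (fun F => L ⊆ F)).erase E, kappa r F L p * mc r E F =
        ∑ F ∈ ((fl r E).filter (fun F => L ⊆ F)).erase E, beta r F * mc r E F := by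
      refine sum_congr rfl fun F hF => ?_
      rw [mem_erase, mem_filter] at hF
      obtain ⟨hne, hF1, hF2⟩ := hF
      have hlt := rank_lt h.hr hF1 hne
      rw [ihn (r F) (by omega) F rfl (ctx_of h hF1 hF2) (fun m hm => ih m (by omega))]
    linarith

/-- **KB** -/
theorem t (hK : StKap) (hW : StWeis) (hI : StID1) : StKB :=
  fun _ _ r E L p h ih => main hK hW hI r L p (r E) E rfl h ih

end Pool.Agent.K7.H76.GGKB
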